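import Mathlib
import Pool.Agent.Y19.QT.Defs
import Pool.Agent.Y705.QT0

set_option autoImplicit false

/-!
Task T9b of the project QT, part A: the multiplicative function `y` with `y * λ♭ = λ`.
-/

namespace Pool.Agent.Y784.QT

open Nat Finset ArithmeticFunction
open Pool.Agent.Y19.QT
open Pool.Agent.H306R2.RZ (js)

noncomputable section

variable {Q : ℕ} {lam : ℕ → ℝ}

/-- `λ` as an arithmetic function -/
def AL (H : Hecke Q lam) : ArithmeticFunction ℝ := ⟨lam, H.zero⟩

/-- `λ♭` as an arithmetic function -/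
def AF (H : Hecke Q lam) : ArithmeticFunction ℝ := ⟨flat lam, by simp [flat, H.zero]⟩

/-- completely multiplicative, `-λ(p)` at `p` -/
def Ag (lam : ℕ → ℝ) : ArithmeticFunction ℝ :=
  ⟨fun n => if n = 0 then 0 else n.factorization.prod fun p k => (-lam p) ^ k, by simp⟩

theorem AL_apply (H : Hecke Q lam) (n : ℕ) : AL H n = lam n := rfl
theorem AF_apply (H : Hecke Q lam) (n : ℕ) : AF H n = flat lam n := rfl

theorem AL_mult (H : Hecke Q lam) : (AL H).IsMultiplicative :=
  ⟨H.one, fun {m n} h => H.mul m n h⟩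

theorem AF_mult (H : Hecke Q lam) : (AF H).IsMultiplicative := by
  refine ⟨by simp [AF_apply, flat, H.one], fun {m n} h => ?_⟩
  simp only [AF_apply, flat, Nat.squarefree_mul h]
  by_cases h1 : Squarefree m <;> by_cases h2 : Squarefree n <;> simp [h1, h2, H.mul m n h]

theorem Ag_mult (lam : ℕ → ℝ) : (Ag lam).IsMultiplicative := by
  refine ⟨by simp [Ag], fun {m n} h => ?_⟩
  by_cases hm : m = 0
  · subst hm; simp
  by_cases hn : n = 0
  · subst hn; simp
  simp only [Ag, ArithmeticFunction.coe_mk, mul_eq_zero, hm, hn, or_self, if_false]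
  rw [Nat.factorization_mul hm hn, Finsupp.prod_add_index']
  · intro a; simp
  · intro a b c; exact pow_add _ _ _

theorem Ag_pow (lam : ℕ → ℝ) (p k : ℕ) (hp : p.Prime) : Ag lam (p ^ k) = (-lam p) ^ k := by
  simp only [Ag, ArithmeticFunction.coe_mk, pow_eq_zero_iff', hp.ne_zero, false_and, if_false]
  rw [hp.factorization_pow, Finsupp.prod_single_index]
  simp

/-- sum over the divisors of a prime power -/
theorem mul_pow_apply (f g : ArithmeticFunction ℝ) (p k : ℕ) (hp : p.Prime) :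
    (f * g) (p ^ k) = ∑ i ∈ range (k + 1), f (p ^ i) * g (p ^ (k - i)) := by
  rw [ArithmeticFunction.mul_apply, Nat.sum_divisorsAntidiagonal (fun a b => f a * g b),
    Nat.sum_divisors_prime_pow hp]
  refine Finset.sum_congr rfl fun i hi => ?_
  rw [Nat.pow_div (by simpa using Nat.lt_succ_iff.mp (Finset.mem_range.mp hi)) hp.pos]

theorem AF_pow (H : Hecke Q lam) (p k : ℕ) (hp : p.Prime) :
    AF H (p ^ k) = if k = 0 then 1 else if k = 1 then lam p else 0 := by
  rw [AF_apply, flat]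
  rcases k with _ | _ | k
  · simp [H.one]
  · simp [hp.squarefree]
  · have h1 : ¬ Squarefree (p ^ (k + 1 + 1)) := by
      rw [Nat.squarefree_pow_iff hp.one_lt.ne' (by omega)]
      rintro ⟨-, h⟩
      omega
    rw [if_neg h1]
    simp

theorem g_mul_F (H : Hecke Q lam) : Ag lam * AF H = 1 := by
  rw [ArithmeticFunction.IsMultiplicative.eq_iff_eq_on_prime_powers _
    ((Ag_mult lam).mul (AF_mult H)) _ ArithmeticFunction.isMultiplicative_one]
  intro p k hp
  rw [mul_pow_apply _ _ _ _ hp]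
  rcases k with _ | k
  · simp [Ag_pow lam p 0 hp |> fun h => by simpa using h, AF_apply, flat, H.one, (Ag_mult lam).1]
  · rw [Finset.sum_range_succ, Finset.sum_range_succ, Finset.sum_eq_zero, zero_add]
    · have e1 : k + 1 - k = 1 := by omega
      have e2 : k + 1 - (k + 1) = 0 := by omega
      rw [e1, e2, AF_pow H p 1 hp, AF_pow H p 0 hp, Ag_pow lam p _ hp, Ag_pow lam p _ hp,
        ArithmeticFunction.one_apply_ne]
      · simp
        ring
      · intro h
        have := Nat.one_lt_pow (n := k + 1) (by omega) hp.one_lt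
        omega
    · intro i hi
      have hi' := Finset.mem_range.mp hi
      rw [AF_pow H p _ hp, if_neg (by omega), if_neg (by omega), mul_zero]

/-- `y = λ * g` -/
def AY (H : Hecke Q lam) : ArithmeticFunction ℝ := AL H * Ag lam

theorem Y_mul_F (H : Hecke Q lam) : AY H * AF H = AL H := by
  rw [AY, mul_assoc, g_mul_F, mul_one]

theorem AY_mult (H : Hecke Q lam) : (AY H).IsMultiplicative := (AL_mult H).mul (Ag_mult lam)

theorem lam_p (H : Hecke Q lam) (p : ℕ) (hp : p.Prime) (hpQ : p ∣ Q) : lam p = 0 := by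
  simpa using H.bad p 0 hp hpQ

theorem lam_pow_le (H : Hecke Q lam) (p : ℕ) (hp : p.Prime) (hpQ : ¬ p ∣ Q) :
    ∀ k : ℕ, |lam (p ^ k)| ≤ k + 1 := by
  obtain ⟨θ, hθ⟩ : ∃ θ : ℝ, lam p = 2 * Real.cos θ := by
    have hb := abs_le.mp (H.bound p hp)
    refine ⟨Real.arccos (lam p / 2), ?_⟩
    rw [Real.cos_arccos (by linarith) (by linarith)]
    ring
  have h1 : ∀ k : ℕ, lam (p ^ (k + 1)) - Real.cos θ * lam (p ^ k) = Real.cos ((k + 1) * θ) ∧
      lam (p ^ (k + 2)) - Real.cos θ * lam (p ^ (k + 1)) = Real.cos ((k + 2) * θ) := by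
    intro k
    induction k with
    | zero =>
      have e1 := H.hrec p 0 hp hpQ
      simp only [zero_add, pow_one, pow_zero, H.one, Nat.cast_zero, one_mul] at e1 ⊢
      refine ⟨by rw [hθ]; ring, ?_⟩
      rw [e1, hθ, Real.cos_two_mul]
      ring
    | succ k ih =>
      refine ⟨?_, ?_⟩
      · rw [show k + 1 + 1 = k + 2 by ring, ih.2]; push_cast; ring_nf
      · have e0 := H.hrec p (k + 1) hp hpQ
        have e00 := H.hrec p k hp hpQ
        have e1 : (((k + 1 : ℕ) : ℝ) + 2) * θ = (k + 2) * θ + θ := by push_cast; ring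
        have e2 : ((k : ℝ) + 1) * θ = (k + 2) * θ - θ := by ring
        have e3 := ih.1
        have e4 := ih.2
        rw [e2, Real.cos_sub] at e3
        rw [e1, Real.cos_add, show k + 1 + 1 = k + 2 by ring] 
        rw [show k + 1 + 2 = k + 3 by ring, show k + 1 + 1 = k + 2 by ring] at e0
        rw [show k + 1 + 2 = k + 3 by ring, e0, hθ]
        rw [hθ] at e00
        linear_combination 2 * Real.cos θ * e4 - e3 - Real.cos θ * e00
  intro k
  induction k with
  | zero => simp [H.one]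
  | succ k ih =>
    have e1 : lam (p ^ (k + 1)) = Real.cos θ * lam (p ^ k) + Real.cos ((k + 1) * θ) := by
      linarith [(h1 k).1]
    rw [e1]
    refine (abs_add_le _ _).trans ?_
    rw [abs_mul]
    have h2 : |Real.cos θ| * |lam (p ^ k)| ≤ 1 * (k + 1) :=
      mul_le_mul (Real.abs_cos_le_one θ) ih (abs_nonneg _) zero_le_one
    have h3 := Real.abs_cos_le_one ((k + 1) * θ)
    push_cast
    linarith

theorem AY_one (H : Hecke Q lam) : AY H 1 = 1 := (AY_mult H).1

theorem AY_p (H : Hecke Q lam) (p : ℕ) (hp : p.Prime) : AY H p = 0 := by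
  have := mul_pow_apply (AL H) (Ag lam) p 1 hp
  rw [pow_one] at this
  rw [AY, this, Finset.sum_range_succ, Finset.sum_range_one, pow_zero, tsub_zero,
    Ag_pow lam p 1 hp, AL_apply, AL_apply, H.one]
  simp [(Ag_mult lam).1]

theorem AY_bad (H : Hecke Q lam) (p k : ℕ) (hp : p.Prime) (hpQ : p ∣ Q) (hk : k ≠ 0) :
    AY H (p ^ k) = 0 := by
  rw [AY, mul_pow_apply _ _ _ _ hp]
  refine Finset.sum_eq_zero fun i hi => ?_
  rcases i with _ | i
  · rw [tsub_zero, Ag_pow lam p k hp, lam_p H p hp hpQ, neg_zero, zero_pow hk, mul_zero]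
  · rw [AL_apply, H.bad p i hp hpQ, zero_mul]

theorem AY_good (H : Hecke Q lam) (p k : ℕ) (hp : p.Prime) (hpQ : ¬ p ∣ Q) :
    |AY H (p ^ k)| ≤ 2 * 3 ^ k := by
  have h1 : |AY H (p ^ k)| ≤ (k + 1) * 2 ^ k := by
    rw [AY, mul_pow_apply _ _ _ _ hp]
    refine (Finset.abs_sum_le_sum_abs _ _).trans ?_
    have h2 : ∀ i ∈ range (k + 1), |AL H (p ^ i) * Ag lam (p ^ (k - i))| ≤ 2 ^ k := by
      intro i hi
      have hi' : i ≤ k := Nat.lt_succ_iff.mp (Finset.mem_range.mp hi)
      rw [abs_mul, AL_apply, Ag_pow lam p _ hp, abs_pow, abs_neg]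
      have h3 : |lam (p ^ i)| ≤ 2 ^ i := by
        refine (lam_pow_le H p hp hpQ i).trans ?_
        have := Nat.lt_two_pow_self (n := i)
        exact_mod_cast this
      have h4 : |lam p| ^ (k - i) ≤ 2 ^ (k - i) := pow_le_pow_left₀ (abs_nonneg _) (H.bound p hp) _
      calc |lam (p ^ i)| * |lam p| ^ (k - i) ≤ 2 ^ i * 2 ^ (k - i) :=
            mul_le_mul h3 h4 (by positivity) (by positivity)
        _ = 2 ^ k := by rw [← pow_add, Nat.add_sub_cancel' hi']
    refine (Finset.sum_le_sum h2).trans ?_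
    simp
  refine h1.trans ?_
  have h5 : ∀ k : ℕ, ((k : ℝ) + 1) * 2 ^ k ≤ 2 * 3 ^ k := by
    intro k
    induction k with
    | zero => norm_num
    | succ k ih =>
      push_cast
      rw [pow_succ, pow_succ]
      rcases k with _ | k
      · norm_num
      · have : (0 : ℝ) < 2 ^ (k + 1) := by positivity
        push_cast at ih ⊢
        nlinarith
  exact h5 k

/-- the sum of `|y(n)| n^{-σ}` -/
theorem AY_sum (H : Hecke Q lam) (σ : ℝ) (hσ : 1 / 2 < σ) :
    Summable (fun n : ℕ => |AY H n| * (n : ℝ) ^ (-σ)) ∧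
      ∑' n : ℕ, |AY H n| * (n : ℝ) ^ (-σ) ≤ (1 + 1 / (2 * σ - 1)) ^ 72 := by
  apply Pool.Agent.Y705.QT0.T0 _ 72 (2 * σ) (by linarith)
  · intro n; positivity
  · simp
  · simp [AY_one H]
  · intro m n h
    rw [(AY_mult H).2 h, abs_mul, Nat.cast_mul, Real.mul_rpow (by positivity) (by positivity)]
    ring
  · intro p hp
    have hpp : (0 : ℝ) < p := by exact_mod_cast hp.pos
    set x : ℝ := (p : ℝ) ^ (-σ) with hx
    have hx0 : 0 < x := Real.rpow_pos_of_pos hpp _
    have hx2 : (p : ℝ) ^ (-(2 * σ)) = x ^ 2 := by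
      rw [hx, ← Real.rpow_natCast, ← Real.rpow_mul hpp.le]
      congr 1
      push_cast
      ring
    have hpk : ∀ k : ℕ, ((p ^ k : ℕ) : ℝ) ^ (-σ) = x ^ k := by
      intro k
      rw [hx, Nat.cast_pow, ← Real.rpow_natCast, ← Real.rpow_natCast, ← Real.rpow_mul hpp.le,
        ← Real.rpow_mul hpp.le, mul_comm]
    have hx1 : x < 1 := Real.rpow_lt_one_of_one_lt_of_neg (by exact_mod_cast hp.one_lt) (by linarith)
    have hR : 1 + 72 * x ^ 2 ≤ ((1 - (p : ℝ) ^ (-(2 * σ)))⁻¹) ^ 72 := by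
      rw [hx2]
      have h1 : 1 + x ^ 2 ≤ (1 - x ^ 2)⁻¹ := by
        rw [← one_div, le_div_iff₀ (by nlinarith)]
        nlinarith [sq_nonneg (x ^ 2)]
      calc 1 + 72 * x ^ 2 = 1 + ((72 : ℕ) : ℝ) * x ^ 2 := by norm_num
        _ ≤ (1 + x ^ 2) ^ 72 := one_add_mul_le_pow (by nlinarith [sq_nonneg x]) 72
        _ ≤ _ := pow_le_pow_left₀ (by positivity) h1 _
    by_cases hpQ : p ∣ Q
    · have h1 : ∀ k : ℕ, k ≠ 0 → |AY H (p ^ k)| * ((p ^ k : ℕ) : ℝ) ^ (-σ) = 0 := by
        intro k hk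
        rw [AY_bad H p k hp hpQ hk, abs_zero, zero_mul]
      refine ⟨summable_of_ne_finset_zero (s := {0}) (fun k hk => h1 k (by simpa using hk)), ?_⟩
      rw [tsum_eq_single 0 h1]
      simp only [pow_zero, AY_one H, abs_one, Nat.cast_one, Real.one_rpow, mul_one]
      refine le_trans ?_ hR
      nlinarith [sq_nonneg x]
    · have hp17 : 17 ≤ p := by
        by_contra hcon
        exact hpQ (H.small p hp (by omega))
      have hx4 : x ≤ 1 / 4 := by
        have h1 : x ^ 2 ≤ (1 / 4) ^ 2 := by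
          rw [← hx2]
          have h2 : (p : ℝ) ^ (-(2 * σ)) ≤ (p : ℝ) ^ (-1 : ℝ) :=
            Real.rpow_le_rpow_of_exponent_le (by exact_mod_cast hp.one_lt.le) (by linarith)
          refine h2.trans ?_
          rw [Real.rpow_neg_one]
          have h3 : (16 : ℝ) ≤ p := by exact_mod_cast (by omega : 16 ≤ p)
          calc ((p : ℝ))⁻¹ ≤ (16 : ℝ)⁻¹ := inv_anti₀ (by norm_num) h3
            _ = (1 / 4) ^ 2 := by norm_num
        exact (pow_le_pow_iff_left₀ hx0.le (by norm_num) two_ne_zero).mp h1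
      have hb : ∀ k : ℕ, |AY H (p ^ k)| * ((p ^ k : ℕ) : ℝ) ^ (-σ) ≤ 2 * (3 * x) ^ k := by
        intro k
        rw [hpk, mul_pow, ← mul_assoc]
        exact mul_le_mul_of_nonneg_right (AY_good H p k hp hpQ) (by positivity)
      have hgeo : Summable (fun k : ℕ => (3 * x) ^ k) :=
        summable_geometric_of_lt_one (by positivity) (by linarith)
      have hs : Summable (fun k : ℕ => |AY H (p ^ k)| * ((p ^ k : ℕ) : ℝ) ^ (-σ)) :=
        Summable.of_nonneg_of_le (fun k => by positivity) hb (hgeo.mul_left 2)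
      refine ⟨hs, le_trans ?_ hR⟩
      rw [← hs.sum_add_tsum_nat_add 2]
      rw [Finset.sum_range_succ, Finset.sum_range_one, pow_zero, pow_one, AY_one H, AY_p H p hp]
      simp only [abs_one, Nat.cast_one, Real.one_rpow, mul_one, abs_zero, zero_mul, add_zero]
      have h3 : ∑' k : ℕ, |AY H (p ^ (k + 2))| * ((p ^ (k + 2) : ℕ) : ℝ) ^ (-σ) ≤
          ∑' k : ℕ, 18 * x ^ 2 * (3 * x) ^ k := by
        refine Summable.tsum_le_tsum (fun k => ?_)
          ((summable_nat_add_iff 2).mpr hs) (hgeo.mul_left _)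
        refine (hb (k + 2)).trans (le_of_eq ?_)
        ring
      rw [tsum_mul_left, tsum_geometric_of_lt_one (by positivity) (by linarith)] at h3
      have h4 : (1 - 3 * x)⁻¹ ≤ 4 := by
        rw [inv_le_comm₀ (by linarith) (by norm_num)]
        linarith
      nlinarith [mul_le_mul_of_nonneg_left h4 (by positivity : (0:ℝ) ≤ 18 * x ^ 2)]

/-- `|λ♭(n)| ≤ n` -/
theorem flat_le (H : Hecke Q lam) (n : ℕ) : |flat lam n| ≤ n := by
  rw [flat]
  split_ifs with hsq
  · induction n using Nat.recOnPosPrimePosCoprime with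
    | zero => simp [H.zero]
    | one => simp [H.one]
    | prime_pow p k hp hk =>
      have h1 : k = 1 := by
        rw [Nat.squarefree_pow_iff hp.one_lt.ne' hk.ne'] at hsq
        exact hsq.2
      subst h1
      rw [pow_one]
      refine (H.bound p hp).trans ?_
      exact_mod_cast hp.two_le
    | coprime a b ha hb hab iha ihb =>
      rw [Nat.squarefree_mul hab] at hsq
      rw [H.mul a b hab, abs_mul, Nat.cast_mul]
      exact mul_le_mul (iha hsq.1) (ihb hsq.2) (abs_nonneg _) (Nat.cast_nonneg _)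
  · simp

/-- the character `n ↦ (d | n)` as an arithmetic function -/
def Ax (d : ℤ) : ArithmeticFunction ℝ := ⟨fun n => if n = 0 then 0 else js d n, by simp⟩

theorem Ax_apply (d : ℤ) (n : ℕ) (hn : n ≠ 0) : Ax d n = js d n := by simp [Ax, hn]

theorem Ax_le (d : ℤ) (n : ℕ) : |Ax d n| ≤ 1 := by
  by_cases hn : n = 0
  · subst hn; simp
  rw [Ax_apply d n hn, js]
  rcases jacobiSym.trichotomy d n with h | h | h <;> rw [h] <;> simp

theorem js_le (d : ℤ) (n : ℕ) : |js d n| ≤ 1 := by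
  rw [js]
  rcases jacobiSym.trichotomy d n with h | h | h <;> rw [h] <;> simp

theorem Ax_mul (d : ℤ) (m n : ℕ) : Ax d (m * n) = Ax d m * Ax d n := by
  by_cases hm : m = 0
  · subst hm; simp
  by_cases hn : n = 0
  · subst hn; simp
  rw [Ax_apply d _ (mul_ne_zero hm hn), Ax_apply d _ hm, Ax_apply d _ hn, js, js, js]
  have : NeZero m := ⟨hm⟩
  have : NeZero n := ⟨hn⟩
  rw [jacobiSym.mul_right]
  push_cast
  rfl

theorem pmul_mul (d : ℤ) (f g : ArithmeticFunction ℝ) :
    (f * g).pmul (Ax d) = f.pmul (Ax d) * g.pmul (Ax d) := by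
  ext n
  rw [ArithmeticFunction.pmul_apply, ArithmeticFunction.mul_apply, ArithmeticFunction.mul_apply,
    Finset.sum_mul]
  refine Finset.sum_congr rfl fun x hx => ?_
  rw [ArithmeticFunction.pmul_apply, ArithmeticFunction.pmul_apply,
    ← (Nat.mem_divisorsAntidiagonal.mp hx).1, Ax_mul]
  ring

/-- `e_d` as an arithmetic function -/
def AE (T : Twists Q lam) (d : ℤ) (hd : Squarefree d) : ArithmeticFunction ℝ :=
  ⟨T.e d, (T.e_zero d hd).1⟩

/-- `η_d = e_d * (y χ_d)` -/
def Aη (T : Twists Q lam) (d : ℤ) (hd : Squarefree d) : ArithmeticFunction ℝ :=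
  AE T d hd * (AY T.hecke).pmul (Ax d)

theorem cf_eq (T : Twists Q lam) (d : ℤ) (hd : Squarefree d) (n : ℕ) :
    T.cf d n = ∑ x ∈ n.divisorsAntidiagonal, Aη T d hd x.1 * (flat lam x.2 * js d x.2) := by
  have h1 : T.cf d n = (AE T d hd * (AL T.hecke).pmul (Ax d)) n := by
    rw [ArithmeticFunction.mul_apply, Twists.cf]
    refine Finset.sum_congr rfl fun x hx => ?_
    rw [ArithmeticFunction.pmul_apply, Ax_apply d _ (Nat.ne_zero_of_mem_divisorsAntidiagonal hx).2]
    rfl
  rw [h1, ← Y_mul_F T.hecke, pmul_mul, ← mul_assoc, ArithmeticFunction.mul_apply]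
  refine Finset.sum_congr rfl fun x hx => ?_
  rw [ArithmeticFunction.pmul_apply, Ax_apply d _ (Nat.ne_zero_of_mem_divisorsAntidiagonal hx).2]
  rfl

end

end Pool.Agent.Y784.QT
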